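import Pool.Agent.Helper35.OE.GoalsE

set_option autoImplicit false

open MeasureTheory
open scoped ENNReal

namespace Pool.Agent.Helper2.OE

open Pool.Agent.Helper73.OE Pool.Agent.Helper35.OE

/-- Reindexing of a product of equal laws. -/
theorem map_reindex {ι α : Type} [MeasurableSpace α] (ρ : Measure α) [IsProbabilityMeasure ρ]
    (e : ι ≃ ι) :
    (Measure.infinitePi fun _ : ι => ρ).map (fun u i => u (e.symm i)) =
      Measure.infinitePi fun _ : ι => ρ := by
  have h := Measure.infinitePi_map_piCongrLeft (X := fun _ : ι => α) (fun _ : ι => ρ) e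
  have hf : (MeasurableEquiv.piCongrLeft (fun _ : ι => α) e : (ι → α) → (ι → α)) =
      fun u i => u (e.symm i) := by
    funext u i
    obtain ⟨a, rfl⟩ := e.surjective i
    rw [MeasurableEquiv.coe_piCongrLeft, Equiv.piCongrLeft_apply_apply, Equiv.symm_apply_apply]
  rw [hf] at h
  exact h

section

variable {H S L : Type} [Group H]

theorem meas_actE {α : Type} [MeasurableSpace α] (g : H) :
    Measurable (Sys.actE g : (H × S → α) → (H × S → α)) :=
  measurable_pi_lambda _ fun e => measurable_pi_apply (g⁻¹ * e.1, e.2)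

theorem meas_actC (g : H) : Measurable (Sys.actC g : Cfg H S L → Cfg H S L) :=
  measurable_pi_lambda _ fun v => measurable_pi_apply (g⁻¹ * v)

theorem lamS_inv (g : H) : (Sys.lamS H S).map (Sys.actE g) = Sys.lamS H S :=
  map_reindex (volume : Measure unitInterval) (Equiv.prodCongr (Equiv.mulLeft g) (Equiv.refl S))

instance : IsProbabilityMeasure (Sys.lamS H S) := by
  unfold Sys.lamS
  infer_instance

/-- The joint action. -/
def actT (g : H) (w : (Cfg H S L × Env H S) × Seeds H S) :
    (Cfg H S L × Env H S) × Seeds H S :=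
  ((Sys.actC g w.1.1, Sys.actE g w.1.2), Sys.actE g w.2)

theorem meas_actP (g : H) :
    Measurable (fun w : Cfg H S L × Env H S => (Sys.actC g w.1, Sys.actE g w.2)) :=
  ((meas_actC g).comp measurable_fst).prodMk ((meas_actE g).comp measurable_snd)

theorem meas_actT (g : H) :
    Measurable (actT g : (Cfg H S L × Env H S) × Seeds H S → _) :=
  ((meas_actP g).comp measurable_fst).prodMk ((meas_actE g).comp measurable_snd)

theorem map_actT (g : H) (μ : Measure (Cfg H S L × Env H S)) [IsProbabilityMeasure μ]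
    (hμ : Sys.Inv μ) : (μ.prod (Sys.lamS H S)).map (actT g) = μ.prod (Sys.lamS H S) := by
  have h := Measure.map_prod_map μ (Sys.lamS H S) (meas_actP (H := H) (S := S) (L := L) g)
    (meas_actE (H := H) (S := S) (α := unitInterval) g)
  rw [hμ g, lamS_inv g] at h
  exact h.symm

end

theorem gINV : G_INV := by
  intro hE hM H S L _ _ _ _ X P ε ε' μ _ hμ g
  have hΦ : Measurable fun w : (Cfg H S L × Env H S) × Seeds H S =>
      (X.batch P ε ε' w.1.1 w.1.2 w.2, w.1.2) :=
    (hM X P ε ε').prodMk (measurable_snd.comp measurable_fst)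
  unfold Sys.next
  rw [Measure.map_map (meas_actP g) hΦ]
  have hc : (fun w : Cfg H S L × Env H S => (Sys.actC g w.1, Sys.actE g w.2)) ∘
      (fun w : (Cfg H S L × Env H S) × Seeds H S =>
        (X.batch P ε ε' w.1.1 w.1.2 w.2, w.1.2)) =
      (fun w : (Cfg H S L × Env H S) × Seeds H S =>
        (X.batch P ε ε' w.1.1 w.1.2 w.2, w.1.2)) ∘ actT g := by
    funext w
    simp only [Function.comp_apply, actT]
    rw [hE X P ε ε' g w.1.1 w.1.2 w.2]
  rw [hc, ← Measure.map_map hΦ (meas_actT g), map_actT g μ hμ]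

theorem gSHIFT : G_SHIFT := by
  intro hE hM H S L _ _ _ _ X P ε ε' μ _ hμ v
  have : MeasurableSingletonClass (S ≃ L) := ⟨fun _ => MeasurableSpace.measurableSet_top⟩
  have h1 : Measurable fun w : (Cfg H S L × Env H S) × Seeds H S =>
      X.batch P ε ε' w.1.1 w.1.2 w.2 1 :=
    (measurable_pi_apply (1 : H)).comp (hM X P ε ε')
  have h2 : Measurable fun w : (Cfg H S L × Env H S) × Seeds H S => w.1.1 1 :=
    (measurable_pi_apply (1 : H)).comp (measurable_fst.comp measurable_fst)
  have hs : MeasurableSet {w : (Cfg H S L × Env H S) × Seeds H S |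
      X.batch P ε ε' w.1.1 w.1.2 w.2 1 ≠ w.1.1 1} :=
    (measurableSet_eq_fun h1 h2).compl
  conv_rhs => rw [← map_actT v⁻¹ μ hμ, Measure.map_apply (meas_actT v⁻¹) hs]
  congr 1
  ext w
  simp only [Set.mem_ofPred_eq, Set.mem_preimage, actT]
  rw [hE X P ε ε' v⁻¹ w.1.1 w.1.2 w.2]
  simp only [Sys.actC, inv_inv, mul_one]

end Pool.Agent.Helper2.OE
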